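import Mathlib

set_option autoImplicit false

namespace Pool.Agent.Lib.MP_f53aaa_nt.RSP

/-- `(pellSeq m).1 + (pellSeq m).2 * sqrt 8 = (3 + sqrt 8) ^ m`. -/
def pellSeq : ℕ → ℕ × ℕ
  | 0 => (1, 0)
  | m + 1 => (3 * (pellSeq m).1 + 8 * (pellSeq m).2, (pellSeq m).1 + 3 * (pellSeq m).2)

/-- the common value `8 d_m ^ 2 + 1 = 64 b_m ^ 2 + 9` -/
def cand (m : ℕ) : ℕ := 8 * (pellSeq m).1 ^ 2 + 1

/-- number of the `m ∈ [1, M]` with `8 d_m ^ 2 + 1 ∈ R` -/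
noncomputable def candCount (R : Set ℕ) (M : ℕ) : ℕ :=
  {m : ℕ | 1 ≤ m ∧ m ≤ M ∧ cand m ∈ R}.ncard

end Pool.Agent.Lib.MP_f53aaa_nt.RSP
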