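import Pool.Agent.Lib.MP_3efbeb_nt.RST.Main
import Pool.Agent.Lib.MP_f53aaa_nt.Core

set_option autoImplicit false
set_option linter.unusedSectionVars false
set_option linter.unusedVariables false

open Filter Topology MeasureTheory ProbabilityTheory Asymptotics

namespace Pool.Agent.Lib.MP_f53aaa_nt.RSP

open Pool.Agent.Lib.MP_926cc3_nt.RS Pool.Agent.Lib.MP_3efbeb_nt.RST Pool.Agent.Lib.MP_f53aaa_nt

/-- the Pell step as a permutation -/
def step (Q : ℕ) : Equiv.Perm (ZMod Q × ZMod Q) where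
  toFun q := (3 * q.1 + 8 * q.2, q.1 + 3 * q.2)
  invFun q := (3 * q.1 - 8 * q.2, -q.1 + 3 * q.2)
  left_inv q := by ext <;> simp <;> ring
  right_inv q := by ext <;> simp <;> ring

theorem step_pow (Q m : ℕ) :
    (step Q ^ m) (1, 0) = (((pell m).1 : ZMod Q), ((pell m).2 : ZMod Q)) := by
  induction m with
  | zero => simp [pell]
  | succ m ih =>
    rw [pow_succ', Equiv.Perm.mul_apply, ih]
    simp [step, pell]

theorem pell_per (Q : ℕ) (hQ : 0 < Q) : ∃ T, 0 < T ∧
    ∀ m, ((pell (m + T)).1 : ZMod Q) = (pell m).1 := by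
  have : NeZero Q := ⟨hQ.ne'⟩
  refine ⟨orderOf (step Q), orderOf_pos _, fun m => ?_⟩
  have h1 := step_pow Q (m + orderOf (step Q))
  rw [pow_add, pow_orderOf_eq_one, mul_one, step_pow] at h1
  exact (congrArg Prod.fst h1).symm

theorem val_per (Q : ℕ) (hQ : 0 < Q) : ∃ T, 0 < T ∧
    ∀ m, (Q.Coprime (val (m + T)) ↔ Q.Coprime (val m)) := by
  obtain ⟨T, hT, h⟩ := pell_per Q hQ
  refine ⟨T, hT, fun m => ?_⟩
  have h1 : ((val (m + T) : ℕ) : ZMod Q) = (val m : ℕ) := by
    unfold val
    push_cast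
    rw [h m]
  rw [ZMod.natCast_eq_natCast_iff'] at h1
  unfold Nat.Coprime
  rw [Nat.gcd_rec, Nat.gcd_rec Q (val m), h1]

theorem pell_pos (m : ℕ) : 0 < (pell m).1 := by
  induction m with
  | zero => simp [pell]
  | succ m ih => simp only [pell]; omega

theorem pell_lt (m : ℕ) : (pell m).1 < (pell (m + 1)).1 := by
  have := pell_pos m
  simp only [pell]
  omega

theorem val_mono : StrictMono val := by
  apply strictMono_nat_of_lt_succ
  intro m
  have h1 := pell_lt m
  unfold val
  have h2 : (pell m).1 ^ 2 < (pell (m + 1)).1 ^ 2 := Nat.pow_lt_pow_left h1 (by norm_num)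
  omega

/-- the fundamental unit -/
noncomputable def al : ℝ := 3 + Real.sqrt 8

theorem sqrt8 : Real.sqrt 8 ^ 2 = 8 := Real.sq_sqrt (by norm_num)

theorem al_gt : 1 < al := by
  unfold al
  have := Real.sqrt_nonneg 8
  linarith

theorem log_al_pos : 0 < Real.log al := Real.log_pos al_gt

theorem pell_al (m : ℕ) : ((pell m).1 : ℝ) + (pell m).2 * Real.sqrt 8 = al ^ m := by
  induction m with
  | zero => simp [pell]
  | succ m ih =>
    rw [pow_succ, ← ih]
    simp only [pell]
    push_cast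
    unfold al
    linear_combination (-((pell m).2 : ℝ)) * sqrt8

theorem pell_le (m : ℕ) : ((pell m).1 : ℝ) ≤ al ^ m := by
  rw [← pell_al]
  have := Real.sqrt_nonneg 8
  have h2 : (0 : ℝ) ≤ (pell m).2 := Nat.cast_nonneg _
  nlinarith

theorem le_pell (m : ℕ) : al ^ m ≤ 2 * ((pell m).1 : ℝ) := by
  rw [← pell_al]
  have h0 := Real.sqrt_nonneg 8
  have h2 : (0 : ℝ) ≤ (pell m).2 := Nat.cast_nonneg _
  have h1 : (0 : ℝ) ≤ (pell m).1 := Nat.cast_nonneg _
  have h3 : ((pell m).1 : ℝ) ^ 2 = 8 * (pell m).2 ^ 2 + 1 := by exact_mod_cast pell_eq m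
  have h4 : ((pell m).2 : ℝ) * Real.sqrt 8 ≤ (pell m).1 := by
    apply le_of_sq_le_sq _ h1
    rw [mul_pow, sqrt8, h3]
    linarith
  linarith

theorem val_lower (m : ℕ) : 2 * (m : ℝ) * Real.log al ≤ Real.log (val m : ℝ) := by
  have ha : 0 < al := by linarith [al_gt]
  have h1 := le_pell m
  have h2 : al ^ (2 * m) ≤ (val m : ℝ) := by
    unfold val
    push_cast
    rw [mul_comm 2 m, pow_mul]
    have h3 : (al ^ m) ^ 2 ≤ (2 * ((pell m).1 : ℝ)) ^ 2 :=
      pow_le_pow_left₀ (pow_pos ha m).le h1 2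
    nlinarith [sq_nonneg ((pell m).1 : ℝ)]
  have h3 := Real.log_le_log (pow_pos ha _) h2
  rw [Real.log_pow] at h3
  push_cast at h3
  exact h3

theorem val_upper (m : ℕ) : Real.log (val m : ℝ) ≤ 2 * (m : ℝ) * Real.log al + Real.log 9 := by
  have ha : 0 < al := by linarith [al_gt]
  have h1 := pell_le m
  have h2 : (val m : ℝ) ≤ al ^ (2 * m) * 9 := by
    unfold val
    push_cast
    rw [mul_comm 2 m, pow_mul]
    have h3 : ((pell m).1 : ℝ) ^ 2 ≤ (al ^ m) ^ 2 :=
      pow_le_pow_left₀ (Nat.cast_nonneg _) h1 2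
    have h4 : 1 ≤ (al ^ m) ^ 2 := one_le_pow₀ (one_le_pow₀ al_gt.le)
    nlinarith
  have h0 : (0 : ℝ) < val m := by unfold val; positivity
  have h3 := Real.log_le_log h0 h2
  rw [Real.log_mul (pow_pos ha _).ne' (by norm_num), Real.log_pow] at h3
  push_cast at h3
  exact h3

theorem log_val : (fun n : ℕ => Real.log (val (n + 1) : ℝ)) ~[atTop]
    (fun n : ℕ => (2 * Real.log al) * ((n : ℝ) + 1)) := by
  have h1 : (fun n : ℕ => Real.log (val (n + 1) : ℝ) - (2 * Real.log al) * ((n : ℝ) + 1))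
      =O[atTop] (fun _ => (1 : ℝ)) := by
    apply IsBigO.of_bound (Real.log 9)
    refine Eventually.of_forall (fun n => ?_)
    have h2 := val_lower (n + 1)
    have h3 := val_upper (n + 1)
    push_cast at h2 h3
    rw [Real.norm_eq_abs, norm_one, mul_one, abs_of_nonneg (by linarith)]
    linarith
  have h2 : (fun _ : ℕ => (1 : ℝ)) =o[atTop]
      (fun n : ℕ => (2 * Real.log al) * ((n : ℝ) + 1)) := by
    rw [isLittleO_const_left]
    right
    apply tendsto_norm_atTop_atTop.comp
    apply Tendsto.const_mul_atTop (by have := log_al_pos; positivity)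
    exact tendsto_atTop_add_const_right _ _ tendsto_natCast_atTop_atTop
  exact h1.trans_isLittleO h2

theorem harm : (fun x : ℕ => ∑ n ∈ Finset.range x, 1 / ((n : ℝ) + 1)) ~[atTop]
    (fun x : ℕ => Real.log (x : ℝ)) := by
  have h1 := Real.tendsto_harmonic_sub_log
  have h2 : (fun n : ℕ => (harmonic n : ℝ) - Real.log (n : ℝ)) =O[atTop] (fun _ => (1 : ℝ)) :=
    h1.isBigO_one ℝ
  have h3 : (fun _ : ℕ => (1 : ℝ)) =o[atTop] (fun n : ℕ => Real.log (n : ℝ)) := by
    rw [isLittleO_const_left]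
    exact Or.inr (tendsto_norm_atTop_atTop.comp
      (Real.tendsto_log_atTop.comp tendsto_natCast_atTop_atTop))
  have h4 := h2.trans_isLittleO h3
  refine IsLittleO.congr_left h4 (fun n => ?_)
  simp [harmonic]

theorem harm_div : Tendsto (fun x : ℕ => ∑ n ∈ Finset.range x, 1 / ((n : ℝ) + 1)) atTop atTop :=
  harm.symm.tendsto_atTop (Real.tendsto_log_atTop.comp tendsto_natCast_atTop_atTop)

/-- mean value along the Pell sequence -/
theorem mean (N : ℕ) (h : ∃ m, (primorial N).Coprime (val m)) : ∃ (T : ℕ) (ρ : ℝ), 0 < T ∧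
    (∀ n, cop N (val (n + T + 1)) = cop N (val (n + 1))) ∧ 0 < ρ ∧
    ∑ n ∈ Finset.range T, cop N (val (n + 1)) = ρ * T := by
  obtain ⟨T, hT, hp⟩ := val_per (primorial N) (primorial_pos N)
  have hper : ∀ m, cop N (val (m + T)) = cop N (val m) := by
    intro m
    unfold cop
    simp only [hp m]
  have hT' : (0 : ℝ) < T := by exact_mod_cast hT
  refine ⟨T, (∑ n ∈ Finset.range T, cop N (val (n + 1))) / T, hT, fun n => ?_, ?_, ?_⟩
  · rw [show n + T + 1 = (n + 1) + T by ring, hper]
  · apply div_pos _ hT'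
    obtain ⟨m, hm⟩ := h
    have hc : cop N (val m) = 1 := by unfold cop; rw [if_pos hm]
    have hp1 : Function.Periodic (fun m => cop N (val m)) T := hper
    -- a representative of the form `n + 1`
    have h1 : cop N (val (((m + T * 1 + (T - 1)) % T) + 1)) = 1 := by
      have h2 : Function.Periodic (fun n => cop N (val (n + 1))) T := by
        intro n
        change cop N (val (n + T + 1)) = cop N (val (n + 1))
        rw [show n + T + 1 = (n + 1) + T by ring, hper]
      have h3 := h2.map_mod_nat (m + T * 1 + (T - 1))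
      rw [h3, show m + T * 1 + (T - 1) + 1 = (m + T) + T by omega, hper, hper, hc]
    have h4 : 0 < cop N (val (((m + T * 1 + (T - 1)) % T) + 1)) := by rw [h1]; norm_num
    refine lt_of_lt_of_le h4 ?_
    exact Finset.single_le_sum (f := fun n => cop N (val (n + 1)))
      (fun i _ => Sieve.cop_nonneg _) (Finset.mem_range.2 (Nat.mod_lt _ hT))
  · field_simp

end Pool.Agent.Lib.MP_f53aaa_nt.RSP
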