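import Pool.Agent.Lib.MP_f53aaa_nt.Pratt
import Pool.Agent.Lib.MP_f53aaa_nt.RSP.Defs
import Pool.Agent.Lib.MP_f53aaa_nt.RSP.Pell

section
/-! A primality certificate for the 119 digit number `8 d_77 ^ 2 + 1`. -/
set_option autoImplicit false

namespace Pool.Agent.Lib.MP_f53aaa_nt.RSP

open Pool.Agent.Lib.MP_f53aaa_nt

theorem q1 : Nat.Prime 2163685385069209 := by
  refine pratt _ 46 60 [2, 2, 2, 3, 3, 3, 3, 7, 11, 13, 17, 31, 6329573] ?_ (by decide +kernel)
  intro q hq
  simp only [List.mem_cons, List.not_mem_nil, or_false] at hq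
  rcases hq with h | h | h | h | h | h | h | h | h | h | h | h | h <;> rw [h]
  all_goals norm_num

theorem q2 : Nat.Prime 88154064994712474297 := by
  refine pratt _ 3 80 [2, 2, 2, 7, 11, 53, 241, 371191, 30183617] ?_ (by decide +kernel)
  intro q hq
  simp only [List.mem_cons, List.not_mem_nil, or_false] at hq
  rcases hq with h | h | h | h | h | h | h | h | h <;> rw [h]
  all_goals norm_num

theorem big : Nat.Prime
    15701497693200240750239635391268013438429022454606630475643620806866105461211789710824135799658718616446489323048778313 := by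
  refine pratt _ 5 400 [2, 2, 2, 3, 3, 43, 43, 89, 89, 113, 113, 307, 307, 337, 337, 617, 617, 11483, 11483, 244243, 244243, 2163685385069209, 2163685385069209, 88154064994712474297, 88154064994712474297] ?_
    (by decide +kernel)
  intro q hq
  simp only [List.mem_cons, List.not_mem_nil, or_false] at hq
  rcases hq with h | h | h | h | h | h | h | h | h | h | h | h | h | h | h | h | h | h | h | h | h | h | h | h | h <;> rw [h]
  all_goals first | exact q1 | exact q2 | norm_num

end Pool.Agent.Lib.MP_f53aaa_nt.RSP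
end

section
set_option autoImplicit false
set_option linter.unusedSectionVars false
set_option linter.unusedVariables false

open Filter Topology MeasureTheory ProbabilityTheory Asymptotics

namespace Pool.Agent.Lib.MP_f53aaa_nt.RSP

open Pool.Agent.Lib.MP_926cc3_nt.RS Pool.Agent.Lib.MP_3efbeb_nt.RST Pool.Agent.Lib.MP_f53aaa_nt

variable {Ω : Type*} [m0 : MeasurableSpace Ω]

theorem pellSeq_eq (m : ℕ) : pellSeq m = pell m := by
  induction m with
  | zero => rfl
  | succ m ih => simp only [pellSeq, pell, ih]

theorem cand_eq (m : ℕ) : cand m = val m := by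
  unfold cand val
  rw [pellSeq_eq]

theorem candCount_eq (R : Ω → Set ℕ) (ω : Ω) (x : ℕ) :
    (candCount (R ω) x : ℝ) = ∑ n ∈ Finset.range x, ind R (val (n + 1)) ω := by
  classical
  have e : ∀ n, ind R (val (n + 1)) ω = if val (n + 1) ∈ R ω then 1 else 0 := by
    intro n
    split_ifs with h
    · exact Dens.ind_of_mem h
    · exact Dens.ind_of_not h
  simp_rw [e]
  rw [← Finset.natCast_card_filter]
  congr 1
  unfold candCount
  rw [← Set.ncard_coe_finset]
  have : {m : ℕ | 1 ≤ m ∧ m ≤ x ∧ cand m ∈ R ω} =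
      (fun n => n + 1) '' (((Finset.range x).filter
        (fun n => val (n + 1) ∈ R ω) : Finset ℕ) : Set ℕ) := by
    ext n
    simp only [Set.mem_ofPred_eq, Finset.coe_filter, Finset.mem_range, Set.mem_image, cand_eq]
    constructor
    · rintro ⟨h1, h2, h3⟩
      refine ⟨n - 1, ⟨by omega, ?_⟩, by omega⟩
      rw [Nat.sub_add_cancel h1]
      exact h3
    · rintro ⟨m, ⟨h1, h2⟩, rfl⟩
      exact ⟨by omega, by omega, h2⟩
  rw [this, Set.ncard_image_of_injective _ (fun a b h => by simpa using h)]

theorem copCount_eq (N x : ℕ) :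
    ({m : ℕ | 1 ≤ m ∧ m ≤ x ∧ (primorial N).Coprime (cand m)}.ncard : ℝ) =
      ∑ n ∈ Finset.range x, cop N (val (n + 1)) := by
  have h := candCount_eq (Ω := Unit) (fun _ => {k | (primorial N).Coprime k}) () x
  unfold candCount at h
  simp only [Set.mem_ofPred_eq] at h
  rw [h]
  refine Finset.sum_congr rfl (fun n _ => ?_)
  unfold cop
  split_ifs with h1
  · exact Dens.ind_of_mem h1
  · exact Dens.ind_of_not h1

theorem inv_anti : Antitone (fun n : ℕ => 1 / ((n : ℝ) + 1)) := by
  intro a b hab
  apply one_div_le_one_div_of_le (by positivity)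
  have : (a : ℝ) ≤ b := by exact_mod_cast hab
  linarith

/-- deterministic part -/
theorem pell_det (N : ℕ) (h : ∃ m, (primorial N).Coprime (val m)) : ∃ ρ : ℝ, 0 < ρ ∧
    Tendsto (fun x : ℕ => (∑ n ∈ Finset.range x, cop N (val (n + 1))) / (x : ℝ)) atTop (𝓝 ρ) ∧
    (fun x => ∑ n ∈ Finset.range x, g N (val (n + 1))) ~[atTop]
      (fun x : ℕ => (ρ / (2 * Real.log al * Path.theta N)) * Real.log (x : ℝ)) := by
  obtain ⟨T, ρ, hT, hper, hρ, hsum⟩ := mean N h
  have hθ := Path.theta_pos N
  have hal := log_al_pos
  refine ⟨ρ, hρ, ?_, ?_⟩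
  · obtain ⟨C, hC⟩ := per_bdd (fun n => cop N (val (n + 1))) T hT hper ρ hsum
    have h1 : Tendsto (fun x : ℕ => C / (x : ℝ)) atTop (𝓝 0) :=
      tendsto_const_nhds.div_atTop tendsto_natCast_atTop_atTop
    have h2 : Tendsto (fun x : ℕ => (∑ n ∈ Finset.range x, cop N (val (n + 1))) / (x : ℝ) - ρ)
        atTop (𝓝 0) := by
      apply squeeze_zero_norm' _ h1
      filter_upwards [eventually_gt_atTop 0] with x hx
      have hx' : (0 : ℝ) < x := by exact_mod_cast hx
      have h3 := hC x
      have e : (∑ n ∈ Finset.range x, cop N (val (n + 1))) / (x : ℝ) - ρ =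
          (∑ n ∈ Finset.range x, (cop N (val (n + 1)) - ρ)) / x := by
        rw [Finset.sum_sub_distrib]
        simp only [Finset.sum_const, Finset.card_range, nsmul_eq_mul]
        field_simp
      rw [e, norm_div, Real.norm_eq_abs, Real.norm_eq_abs, abs_of_pos hx']
      exact div_le_div_of_nonneg_right h3 hx'.le
    have h4 := h2.add_const ρ
    simpa using h4
  · set c : ℝ := 2 * Real.log al * Path.theta N with hc
    have hc0 : 0 < c := by positivity
    have h1 : (fun n : ℕ => g N (val (n + 1))) ~[atTop]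
        (fun n => (cop N (val (n + 1)) / c) * (1 / ((n : ℝ) + 1))) := by
      have h2 := (IsEquivalent.refl (u := fun n => cop N (val (n + 1)) / Path.theta N)
        (l := atTop)).mul log_val.inv
      refine (h2.congr_left ?_).congr_right ?_
      · refine Eventually.of_forall (fun n => ?_)
        simp only [Pi.mul_apply, Pi.inv_apply, g]
        rw [← div_eq_mul_inv, div_div]
      · refine Eventually.of_forall (fun n => ?_)
        simp only [Pi.mul_apply, Pi.inv_apply]
        rw [hc]
        have : (0 : ℝ) < (n : ℝ) + 1 := by positivity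
        field_simp
    have h3 := per_equiv (fun n => cop N (val (n + 1)) / c) T hT (fun n => by
        simp only [hper n]) (ρ / c) (by
        rw [← Finset.sum_div, hsum]; ring) (by positivity) _ inv_anti
        tendsto_one_div_add_atTop_nhds_zero_nat harm_div
    have hdiv : Tendsto (fun x => (ρ / c) * ∑ n ∈ Finset.range x, 1 / ((n : ℝ) + 1))
        atTop atTop := harm_div.const_mul_atTop (by positivity)
    have h4 := equiv_sum h1 (fun n => mul_nonneg (div_nonneg (Sieve.cop_nonneg _) hc0.le)
      (by positivity)) (h3.symm.tendsto_atTop hdiv)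
    have h5 := (IsEquivalent.refl (u := fun _ : ℕ => ρ / c) (l := atTop)).mul harm
    exact (h4.trans h3).trans h5

theorem pell_ae {μ : Measure Ω} [IsProbabilityMeasure μ] {N : ℕ} {A : ℕ → ℕ → Set Ω}
    (hA : ∀ m n, MeasurableSet (A m n))
    (hI : iIndepSet (fun q : ℕ × ℕ => A q.1 q.2) μ)
    (hP : ∀ m n, N < m → m < n → μ.real (A m n) = 1 / m) {ρ : ℝ} (hρ : 0 < ρ)
    (h : (fun x => ∑ n ∈ Finset.range x, g N (val (n + 1))) ~[atTop]
      (fun x : ℕ => (ρ / (2 * Real.log al * Path.theta N)) * Real.log (x : ℝ))) :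
    ∀ᵐ ω ∂μ, Tendsto (fun x : ℕ => (candCount (sieveSet N A ω) x : ℝ) / Real.log (x : ℝ))
      atTop (𝓝 (ρ / (2 * Real.log al * Path.theta N))) := by
  have hθ := Path.theta_pos N
  have hal := log_al_pos
  set c : ℝ := ρ / (2 * Real.log al * Path.theta N) with hc
  have hc0 : 0 < c := by positivity
  have hdiv : Tendsto (fun x : ℕ => c * Real.log (x : ℝ)) atTop atTop :=
    (Real.tendsto_log_atTop.comp tendsto_natCast_atTop_atTop).const_mul_atTop hc0
  have h1 := model (μ := μ) hA hI hP (fun _ n => val (n + 1))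
    (fun _ => fun a b hab => val_mono (by omega)) (fun _ => by unfold val; omega) {0}
    (fun i hi j hj hij n => by
      rw [Finset.mem_singleton] at hi hj; omega) (by
      simp only [Finset.prod_singleton]
      exact h.symm.tendsto_atTop hdiv)
  simp only [Finset.prod_singleton] at h1
  filter_upwards [h1] with ω hω
  have h2 := hω.trans h
  have hz : ∀ᶠ x : ℕ in atTop, c * Real.log (x : ℝ) ≠ 0 :=
    (hdiv.eventually_gt_atTop 0).mono (fun x hx => hx.ne')
  have h3 := (isEquivalent_iff_tendsto_one hz).1 h2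
  have h4 := h3.const_mul c
  rw [mul_one] at h4
  refine h4.congr (fun x => ?_)
  rw [candCount_eq]
  simp only [Pi.div_apply]
  rw [← mul_div_assoc, mul_div_mul_left _ _ hc0.ne']

/-- if no value is coprime to the primes up to `N`, only values up to `N` are kept -/
theorem none_kept {N : ℕ} {A : ℕ → ℕ → Set Ω} {ω : Ω}
    (h : ∀ m, ¬ (primorial N).Coprime (val m)) {m : ℕ} (hm : val m ∈ sieveSet N A ω) :
    val m ≤ N := by
  by_contra hlt
  apply h m
  rcases Nat.lt_or_ge (N + 1) (val m) with h1 | h1
  · exact ((kept_large N _ _ (by omega)).1 hm).1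
  · have hp := (kept_small N _ _ h1).1 hm
    rw [Nat.coprime_comm, hp.coprime_iff_not_dvd, hp.dvd_primorial_iff]
    exact hlt

theorem val77_prime : (val 77).Prime := by
  have e : val 77 =
    15701497693200240750239635391268013438429022454606630475643620806866105461211789710824135799658718616446489323048778313 := by
    decide +kernel
  rw [e]
  exact big

theorem hyp77 (N : ℕ) (hN : N < val 77) : ∃ m, (primorial N).Coprime (val m) := by
  refine ⟨77, ?_⟩
  have hp := val77_prime
  rw [Nat.coprime_comm, hp.coprime_iff_not_dvd, hp.dvd_primorial_iff]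
  omega

end Pool.Agent.Lib.MP_f53aaa_nt.RSP
end
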